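import Pool.Agent.H29.FX.Targets2

/-!
# Board tfx_modules (MP_7ecdd4_nt), row SPE: the spread part of an entry
-/

set_option autoImplicit false

open Finset

namespace Pool.Agent.H10.TFX

open Pool.Agent.H29.FX

/-- the part of `x` composed of the primes in `P` -/
def spe_q (x : ℕ) (P : Finset ℕ) : ℕ := ∏ p ∈ P, p ^ x.factorization p

theorem spe_dvd {x : ℕ} {P Q : Finset ℕ} (h : P ⊆ Q) : spe_q x P ∣ spe_q x Q :=
  Finset.prod_dvd_prod_of_subset _ _ _ h

theorem spe_all {x : ℕ} (hx : 1 ≤ x) : spe_q x x.primeFactors = x := by
  have := Nat.prod_factorization_pow_eq_self (n := x) (by omega)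
  conv_rhs => rw [← this]
  rfl

theorem spe_pos {x : ℕ} {P : Finset ℕ} (h : P ⊆ x.primeFactors) : 1 ≤ spe_q x P := by
  refine Finset.one_le_prod' fun p hp => ?_
  exact Nat.one_le_pow _ _ (Nat.prime_of_mem_primeFactors (h hp)).pos

theorem spe_mem {x : ℕ} {P : Finset ℕ} (h : P ⊆ x.primeFactors) {p : ℕ} (hp : p ∈ P) :
    p ∣ spe_q x P := by
  have h1 := h hp
  have h2 : x.factorization p ≠ 0 := by
    rw [← Finsupp.mem_support_iff, Nat.support_factorization]
    exact h1
  exact (dvd_pow_self p h2).trans (Finset.dvd_prod_of_mem _ hp)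

theorem spe_pf {x : ℕ} {P : Finset ℕ} (h : P ⊆ x.primeFactors) :
    (spe_q x P).primeFactors = P := by
  ext p
  constructor
  · intro hp
    have hpp := Nat.prime_of_mem_primeFactors hp
    have h1 := Nat.dvd_of_mem_primeFactors hp
    obtain ⟨r, hr, h2⟩ := (Prime.dvd_finsetProd_iff hpp.prime _).1 h1
    have h3 := hpp.dvd_of_dvd_pow h2
    have hrp := Nat.prime_of_mem_primeFactors (h hr)
    rw [(Nat.prime_dvd_prime_iff_eq hpp hrp).1 h3]
    exact hr
  · intro hp
    rw [Nat.mem_primeFactors]
    exact ⟨Nat.prime_of_mem_primeFactors (h hp), spe_mem h hp, Nat.one_le_iff_ne_zero.1 (spe_pos h)⟩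

theorem spe_rad {x : ℕ} {P : Finset ℕ} (h : P ⊆ x.primeFactors) :
    Pool.Agent.H38.AE.rad (spe_q x P) = ∏ p ∈ P, p := by
  unfold Pool.Agent.H38.AE.rad
  rw [spe_pf h]

theorem spe_root {x E : ℕ} {Z : ℝ} {P : Finset ℕ} (h : P ⊆ x.primeFactors) (hE : 1 ≤ E)
    (hP : ∀ p ∈ P, E ≤ x.factorization p) (hZ : (spe_q x P : ℝ) ≤ Z) :
    ((∏ p ∈ P, p : ℕ) : ℝ) ≤ Z ^ (1 / (E : ℝ)) := by
  have h1 : (∏ p ∈ P, p) ^ E ≤ spe_q x P := by
    rw [← Finset.prod_pow]
    refine Finset.prod_le_prod' fun p hp => ?_
    exact Nat.pow_le_pow_right (Nat.prime_of_mem_primeFactors (h hp)).pos (hP p hp)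
  have h2 : (((∏ p ∈ P, p : ℕ) : ℝ)) ^ E ≤ Z := by
    refine le_trans ?_ hZ
    exact_mod_cast h1
  have hE0 : (E : ℝ) ≠ 0 := by
    have : (1 : ℝ) ≤ E := by exact_mod_cast hE
    linarith
  have h3 : (0 : ℝ) ≤ ((∏ p ∈ P, p : ℕ) : ℝ) := Nat.cast_nonneg _
  calc ((∏ p ∈ P, p : ℕ) : ℝ) = ((((∏ p ∈ P, p : ℕ) : ℝ)) ^ E) ^ (1 / (E : ℝ)) := by
        rw [← Real.rpow_natCast, ← Real.rpow_mul h3, mul_one_div_cancel hE0, Real.rpow_one]
    _ ≤ Z ^ (1 / (E : ℝ)) := Real.rpow_le_rpow (by positivity) h2 (by positivity)

theorem pf_SPE : T_SPE := by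
  classical
  intro x E T Z hx hE hT hZ
  set S : Finset ℕ := x.primeFactors.filter fun p =>
    E < x.factorization p ∧ (ze x (x.factorization p) : ℝ) ≤ T with hS
  have hSx : S ⊆ x.primeFactors := Finset.filter_subset _ _
  have hZ1 : 1 ≤ Z ^ (1 / (E : ℝ)) := Real.one_le_rpow hZ (by positivity)
  refine ⟨spe_q x S, spe_pos hSx, ?_, ?_, ?_, ?_⟩
  · have := spe_dvd (x := x) hSx
    rwa [spe_all hx] at this
  · intro hs
    have key : ∀ U : Finset ℕ,
        Z ≤ (spe_q x (S.filter fun p => x.factorization p ∈ U) : ℝ) →
        ∃ q : ℕ, 1 ≤ q ∧ q ∣ spe_q x S ∧ Z ≤ q ∧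
          (Pool.Agent.H38.AE.rad q : ℝ) ≤ T * Z ^ (1 / (E : ℝ)) := by
      intro U
      induction U using Finset.induction_on with
      | empty =>
        intro h
        refine ⟨1, le_rfl, one_dvd _, ?_, ?_⟩
        · have h1 : (S.filter fun p => x.factorization p ∈ (∅ : Finset ℕ)) = ∅ := by
            apply Finset.filter_false_of_mem
            intro p _
            simp
          rw [h1] at h
          unfold spe_q at h
          rw [Finset.prod_empty] at h
          exact h
        · unfold Pool.Agent.H38.AE.rad
          rw [Nat.primeFactors_one, Finset.prod_empty, Nat.cast_one]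
          nlinarith
      | insert e U he ih =>
        intro h
        by_cases h1 : Z ≤ (spe_q x (S.filter fun p => x.factorization p ∈ U) : ℝ)
        · exact ih h1
        · push Not at h1
          have hsub : (S.filter fun p => x.factorization p ∈ insert e U) ⊆ x.primeFactors :=
            (Finset.filter_subset _ _).trans hSx
          have hsubU : (S.filter fun p => x.factorization p ∈ U) ⊆ x.primeFactors :=
            (Finset.filter_subset _ _).trans hSx
          refine ⟨spe_q x (S.filter fun p => x.factorization p ∈ insert e U), spe_pos hsub,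
            spe_dvd (Finset.filter_subset _ _), h, ?_⟩
          rw [spe_rad hsub]
          have h2 : (S.filter fun p => x.factorization p ∈ insert e U) =
              (S.filter fun p => x.factorization p ∈ U) ∪
                (S.filter fun p => x.factorization p = e) := by
            ext p
            simp only [Finset.mem_filter, Finset.mem_union, Finset.mem_insert]
            tauto
          have h3 : Disjoint (S.filter fun p => x.factorization p ∈ U)
              (S.filter fun p => x.factorization p = e) := by
            rw [Finset.disjoint_filter]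
            intro p _ h4 h5
            rw [h5] at h4
            exact he h4
          rw [h2, Finset.prod_union h3, Nat.cast_mul, mul_comm]
          have h4 := spe_root hsubU hE (fun p hp => by
            have := (Finset.mem_filter.1 (Finset.mem_filter.1 hp).1).2.1
            omega) h1.le
          have h5 : ((∏ p ∈ S.filter (fun p => x.factorization p = e), p : ℕ) : ℝ) ≤ T := by
            rcases (S.filter fun p => x.factorization p = e).eq_empty_or_nonempty with h6 | ⟨r, hr⟩
            · rw [h6, Finset.prod_empty, Nat.cast_one]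
              exact hT
            · have h7 := Finset.mem_filter.1 hr
              have h8 := (Finset.mem_filter.1 h7.1).2.2
              rw [h7.2] at h8
              refine le_trans ?_ h8
              have h9 : ∏ p ∈ S.filter (fun p => x.factorization p = e), p ≤ ze x e := by
                unfold ze
                refine Finset.prod_le_prod_of_subset_of_one_le' ?_ ?_
                · intro p hp
                  rw [Finset.mem_filter] at hp ⊢
                  exact ⟨hSx hp.1, hp.2⟩
                · intro p hp _
                  exact (Nat.prime_of_mem_primeFactors (Finset.mem_filter.1 hp).1).one_le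
              exact_mod_cast h9
          exact mul_le_mul h5 h4 (Nat.cast_nonneg _) (by linarith)
    refine key (S.image fun p => x.factorization p) ?_
    have h1 : (S.filter fun p => x.factorization p ∈ S.image fun p => x.factorization p) = S := by
      apply Finset.filter_true_of_mem
      intro p hp
      exact Finset.mem_image_of_mem _ hp
    rw [h1]
    exact hs
  · intro hs
    rw [spe_rad hSx]
    refine spe_root hSx hE (fun p hp => ?_) hs.le
    have := (Finset.mem_filter.1 hp).2.1
    omega
  · intro p hp hps
    have h1 : p ∉ S := fun h => hps (spe_mem hSx h)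
    rw [hS, Finset.mem_filter, not_and, not_and_or, not_lt, not_le] at h1
    exact h1 hp

end Pool.Agent.H10.TFX
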